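import Pool.Agent.Helper38.ZS.Stmts

/-!
# Zonotope signing, module 5: pieces are large
-/

namespace Pool.Agent.Helper43.ZS

open Finset Pool.Agent.Helper38.ZS
open scoped Classical

noncomputable section

lemma row_sq {ι : Type} [Fintype ι] {P : ι → ι → ℝ} (hP : IsPr P) (v : ι) :
    ∑ k, P v k ^ 2 = P v v := by
  rw [← hP.idem v v]
  refine Finset.sum_congr rfl fun k _ => ?_
  rw [hP.symm k v]; ring

lemma ap_sq_le {ι : Type} [Fintype ι] {P : ι → ι → ℝ} (hP : IsPr P) (x : ι → ℝ) (v : ι) :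
    (ap P x v) ^ 2 ≤ P v v * ∑ k, x k ^ 2 := by
  unfold ap
  rw [← row_sq hP v]
  exact Finset.sum_mul_sq_le_sq_mul_sq _ _ _

lemma diag_nonneg {ι : Type} [Fintype ι] {P : ι → ι → ℝ} (hP : IsPr P) (v : ι) : 0 ≤ P v v := by
  rw [← row_sq hP v]; positivity

lemma abs_TT_le (x : ℝ) : |TT x| ≤ 1 := by
  unfold TT cl
  rw [abs_le]
  constructor <;>
  · rcases le_total x 2 with h2 | h2 <;> rcases le_total x 1 with h1 | h1 <;>
      rcases le_total (-2) x with h3 | h3 <;> rcases le_total (-1) x with h4 | h4 <;>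
      simp [min_eq_left, min_eq_right, max_eq_left, max_eq_right, h1, h2, h3, h4] <;> linarith

lemma TT_zero {x : ℝ} (h : |x| ≤ 1) : TT x = 0 := by
  rw [abs_le] at h
  unfold TT cl
  rw [min_eq_left (by linarith [h.2]), min_eq_left h.2, max_eq_right (by linarith [h.1]),
    max_eq_right h.1]
  ring

/-- the sum of squares in terms of `nu` -/
lemma sq_le_nu {ι : Type} (g : ι → ℝ) (Z : Finset ι) (B : ℝ) (hB : 1 ≤ B) (h : nu g Z ≤ B) :
    ∑ i ∈ Z, g i ^ 2 ≤ B ^ 5 := by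
  have hterm : ∀ i ∈ Z, g i ^ 2 ≤ |g i| ^ (19 / 20 : ℝ) * B ^ 4 := by
    intro i hi
    have h0 : 0 ≤ |g i| := abs_nonneg _
    have h1 : |g i| ^ (19 / 20 : ℝ) ≤ B := by
      refine le_trans ?_ h
      unfold nu
      exact Finset.single_le_sum (f := fun i => |g i| ^ (19 / 20 : ℝ))
        (fun j _ => Real.rpow_nonneg (abs_nonneg _) _) hi
    have h2 : |g i| ≤ B ^ 2 := by
      have e1 : |g i| = (|g i| ^ (19 / 20 : ℝ)) ^ (20 / 19 : ℝ) := by
        rw [← Real.rpow_mul h0]; norm_num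
      have e2 : (|g i| ^ (19 / 20 : ℝ)) ^ (20 / 19 : ℝ) ≤ B ^ (20 / 19 : ℝ) :=
        Real.rpow_le_rpow (Real.rpow_nonneg h0 _) h1 (by norm_num)
      have e3 : B ^ (20 / 19 : ℝ) ≤ B ^ (2 : ℝ) :=
        Real.rpow_le_rpow_of_exponent_le hB (by norm_num)
      rw [Real.rpow_two] at e3
      linarith
    have hB2 : 1 ≤ B ^ 2 := one_le_pow₀ hB
    rcases eq_or_lt_of_le h0 with h3 | h3
    · have : g i = 0 := abs_eq_zero.mp h3.symm
      rw [this]; simp
    · have e1 : g i ^ 2 = |g i| ^ (19 / 20 : ℝ) * |g i| ^ (21 / 20 : ℝ) := by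
        rw [← Real.rpow_add h3, ← sq_abs]
        norm_num
      rw [e1]
      refine mul_le_mul_of_nonneg_left ?_ (Real.rpow_nonneg h0 _)
      calc |g i| ^ (21 / 20 : ℝ) ≤ (B ^ 2) ^ (21 / 20 : ℝ) :=
            Real.rpow_le_rpow h0 h2 (by norm_num)
        _ ≤ (B ^ 2) ^ (2 : ℝ) := Real.rpow_le_rpow_of_exponent_le hB2 (by norm_num)
        _ = B ^ 4 := by rw [Real.rpow_two]; ring
  calc ∑ i ∈ Z, g i ^ 2 ≤ ∑ i ∈ Z, |g i| ^ (19 / 20 : ℝ) * B ^ 4 := Finset.sum_le_sum hterm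
    _ = nu g Z * B ^ 4 := by rw [← Finset.sum_mul]; rfl
    _ ≤ B * B ^ 4 := mul_le_mul_of_nonneg_right h (by positivity)
    _ = B ^ 5 := by ring

theorem st_big : ST_BIG := by
  intro C M hC hM
  have hB : 1 ≤ C * M := by nlinarith
  have hB5 : 0 < (C * M) ^ 5 := by positivity
  refine ⟨1 / (4 * (C * M) ^ 5), by positivity, ?_⟩
  intro ι _ P V Z g m hP hη hm hm0 hnu hD
  by_contra hlt
  push Not at hlt
  -- the large points
  set X := (Z ∩ V).filter (fun v => 1 < |g v|) with hX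
  have hXm : m ≤ (#X : ℝ) := by
    rw [hm]
    calc ∑ i ∈ Z ∩ V, |TT (g i)| ≤ ∑ i ∈ Z ∩ V, (if 1 < |g i| then (1 : ℝ) else 0) := by
          refine Finset.sum_le_sum fun i _ => ?_
          split_ifs with h
          · exact abs_TT_le _
          · rw [TT_zero (not_lt.mp h)]; simp
      _ = (#X : ℝ) := by rw [Finset.sum_ite]; simp [hX]
  set Y := X.filter (fun i => 1 / 2 < |rs Z g i - ap P (rs Z g) i|) with hY
  have hYm : (#Y : ℝ) ≤ m / 4 := by
    have h1 : (#Y : ℝ) * (1 / 4) ≤ DD P g Z := by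
      unfold DD
      calc (#Y : ℝ) * (1 / 4) = ∑ i ∈ Y, (1 / 4 : ℝ) := by simp
        _ ≤ ∑ i ∈ Y, (rs Z g i - ap P (rs Z g) i) ^ 2 := by
            refine Finset.sum_le_sum fun i hi => ?_
            have : 1 / 2 < |rs Z g i - ap P (rs Z g) i| := (Finset.mem_filter.mp hi).2
            rw [← sq_abs]; nlinarith [abs_nonneg (rs Z g i - ap P (rs Z g) i)]
        _ ≤ _ := Finset.sum_le_sum_of_subset_of_nonneg (Finset.subset_univ _)
            (fun i _ _ => sq_nonneg _)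
    linarith
  obtain ⟨v, hvX, hvY⟩ : ∃ v ∈ X, v ∉ Y := by
    by_contra hcon
    push Not at hcon
    have : (#X : ℝ) ≤ (#Y : ℝ) := by exact_mod_cast Finset.card_le_card hcon
    linarith
  have hv1 := (Finset.mem_filter.mp hvX)
  have hvZ : v ∈ Z := (Finset.mem_inter.mp hv1.1).1
  have hvV : v ∈ V := (Finset.mem_inter.mp hv1.1).2
  have hv2 : |rs Z g v - ap P (rs Z g) v| ≤ 1 / 2 := by
    by_contra hcon
    exact hvY (Finset.mem_filter.mpr ⟨hvX, not_le.mp hcon⟩)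
  have hrs : rs Z g v = g v := by simp [rs, hvZ]
  rw [hrs] at hv2
  have hap : 1 / 2 < |ap P (rs Z g) v| := by
    have := abs_sub_abs_le_abs_sub (g v) (ap P (rs Z g) v)
    linarith [hv1.2]
  have h5 := ap_sq_le hP (rs Z g) v
  have h6 : ∑ k, rs Z g k ^ 2 = ∑ i ∈ Z, g i ^ 2 := by
    unfold rs
    rw [← Finset.sum_filter_add_sum_filter_not univ (fun k => k ∈ Z)]
    rw [Finset.sum_congr rfl (g := fun k => g k ^ 2)]
    · rw [Finset.sum_eq_zero (s := univ.filter (fun k => ¬ k ∈ Z))]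
      · simp
      · intro k hk; simp [(Finset.mem_filter.mp hk).2]
    · intro k hk; simp [(Finset.mem_filter.mp hk).2]
  have h7 : ∑ i ∈ Z, g i ^ 2 ≤ (C * M) ^ 5 := by
    refine sq_le_nu g Z _ hB (le_trans hnu ?_)
    exact mul_le_mul_of_nonneg_left hlt.le (by linarith)
  rw [h6] at h5
  have h8 : P v v * ∑ i ∈ Z, g i ^ 2 ≤ 1 / 4 := by
    calc P v v * ∑ i ∈ Z, g i ^ 2 ≤ (1 / (4 * (C * M) ^ 5)) * (C * M) ^ 5 :=
          mul_le_mul (hη v hvV) h7 (Finset.sum_nonneg fun i _ => sq_nonneg _) (by positivity)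
      _ = 1 / 4 := by field_simp
  have h9 : 1 / 4 < (ap P (rs Z g) v) ^ 2 := by
    rw [← sq_abs]; nlinarith [abs_nonneg (ap P (rs Z g) v)]
  linarith

end

end Pool.Agent.Helper43.ZS
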