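import Pool.Agent.Helper99.ZS.Lib

set_option autoImplicit false

open Finset

noncomputable section

namespace ZS

variable {V : Type} [Fintype V] [DecidableEq V]

theorem e2m_disj (A : Finset V) (f : Finset V → ℝ) :
    (∑ B : Finset V, if Disjoint A B then f B else 0) = ∑ B ∈ (Aᶜ).powerset, f B := by
  rw [← sum_filter]
  refine sum_congr ?_ fun _ _ => rfl
  ext B
  simp only [mem_filter, mem_univ, true_and, mem_powerset]
  rw [Finset.subset_compl_iff_disjoint_right, disjoint_comm]

theorem e2m_left (q r : ℝ) (F : Finset V → ℝ) : E2 q r (fun A _ => F A) = E q F := by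
  unfold E2 E
  refine sum_congr rfl fun A _ => ?_
  rw [e2m_disj]
  have h := Finset.sum_pow_mul_eq_add_pow r (1 - q - r) (Aᶜ)
  rw [show r + (1 - q - r) = 1 - q by ring, card_compl] at h
  rw [← h, mul_sum, sum_mul]
  exact sum_congr rfl fun B _ => by ring

theorem e2m_symm (q r : ℝ) (F : Finset V → Finset V → ℝ) :
    E2 q r F = E2 r q fun A B => F B A := by
  unfold E2
  rw [sum_comm]
  refine sum_congr rfl fun A _ => sum_congr rfl fun B _ => ?_
  by_cases hd : Disjoint A B
  swap
  · rw [if_neg hd, if_neg fun h => hd h.symm]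
  rw [if_pos hd, if_pos hd.symm]
  · have h1 : Fintype.card V - #B - #A = Fintype.card V - #A - #B := by omega
    have h2 : 1 - q - r = 1 - r - q := by ring
    rw [h1, h2]
    ring

theorem e2m_union_aux (A : Finset V) (f : Finset V → ℝ) :
    (∑ B : Finset V, if Disjoint A B then f (A ∪ B) else 0) =
      ∑ C : Finset V, if A ⊆ C then f C else 0 := by
  rw [← sum_filter, ← sum_filter]
  refine sum_nbij' (fun B => A ∪ B) (fun C => C \ A) ?_ ?_ ?_ ?_ ?_
  · intro B _
    simp
  · intro C _
    simp only [mem_filter, mem_univ, true_and]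
    exact disjoint_sdiff
  · intro B hB
    simp only [mem_filter, mem_univ, true_and] at hB
    show (A ∪ B) \ A = B
    rw [union_sdiff_left]
    exact sdiff_eq_self_of_disjoint hB.symm
  · intro C hC
    simp only [mem_filter, mem_univ, true_and] at hC
    show A ∪ C \ A = C
    exact union_sdiff_of_subset hC
  · intro B _
    rfl

theorem e2m_union (q r : ℝ) (F : Finset V → ℝ) :
    E2 q r (fun A B => F (A ∪ B)) = E (q + r) F := by
  unfold E2 E
  have h1 : ∀ A : Finset V, (∑ B : Finset V, if Disjoint A B then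
      q ^ #A * r ^ #B * (1 - q - r) ^ (Fintype.card V - #A - #B) * F (A ∪ B) else 0) =
      ∑ C : Finset V, if A ⊆ C then
        q ^ #A * r ^ (#C - #A) * (1 - q - r) ^ (Fintype.card V - #C) * F C else 0 := by
    intro A
    rw [← e2m_union_aux A
      (fun C => q ^ #A * r ^ (#C - #A) * (1 - q - r) ^ (Fintype.card V - #C) * F C)]
    refine sum_congr rfl fun B _ => ?_
    split_ifs with hd
    · rw [card_union_of_disjoint hd]
      have h2 : #A + #B - #A = #B := by omega
      have h3 : Fintype.card V - (#A + #B) = Fintype.card V - #A - #B := by omega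
      rw [h2, h3]
    · rfl
  rw [sum_congr rfl fun A _ => h1 A, sum_comm]
  refine sum_congr rfl fun C _ => ?_
  rw [← sum_filter]
  have h4 : (univ.filter fun A : Finset V => A ⊆ C) = C.powerset := by
    ext A; simp
  rw [h4]
  have h := Finset.sum_pow_mul_eq_add_pow q r C
  rw [show (1 : ℝ) - (q + r) = 1 - q - r by ring, ← h, sum_mul, sum_mul]

theorem st_E2M : ST_E2M := by
  intro V _ _ q r _ _ _
  refine ⟨e2m_left q r, ?_, e2m_union q r, e2m_symm q r⟩
  intro F
  rw [e2m_symm]
  exact e2m_left r q F

end ZS
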