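import Pool.Agent.Helper99.ZS.Lib

set_option autoImplicit false

open Finset MeasureTheory

noncomputable section

namespace ZS

variable {V : Type} [Fintype V] [DecidableEq V]

theorem inf_bij (w : V) (G : Finset V → ℝ) :
    ∑ A with w ∈ A, G A = ∑ A with w ∉ A, G (insert w A) := by
  refine sum_nbij' (fun A => A.erase w) (fun A => insert w A) ?_ ?_ ?_ ?_ ?_
  · intro A _
    simp
  · intro A _
    simp
  · intro A hA
    simp only [mem_filter, mem_univ, true_and] at hA
    exact insert_erase hA
  · intro A hA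
    simp only [mem_filter, mem_univ, true_and] at hA
    exact erase_insert hA
  · intro A hA
    simp only [mem_filter, mem_univ, true_and] at hA
    show G A = G (insert w (A.erase w))
    rw [insert_erase hA]

theorem inf_pair (w : V) (G : Finset V → ℝ) :
    ∑ A, G A = ∑ A with w ∉ A, (G A + G (insert w A)) := by
  rw [sum_add_distrib, ← inf_bij w G, add_comm]
  exact (sum_filter_add_sum_filter_not univ (fun A : Finset V => w ∈ A) G).symm

theorem inf_wt (q : ℝ) (w : V) (A : Finset V) (hA : w ∉ A) :
    q ^ #A * (1 - q) ^ (Fintype.card V - #A) +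
      q ^ #(insert w A) * (1 - q) ^ (Fintype.card V - #(insert w A)) =
      q ^ #A * (1 - q) ^ (Fintype.card V - 1 - #A) := by
  rw [card_insert_of_notMem hA]
  have h1 : #A < Fintype.card V := by
    rw [← card_univ]
    exact card_lt_card ⟨subset_univ A, fun h => hA (h (mem_univ w))⟩
  obtain ⟨k, hk⟩ : ∃ k, Fintype.card V = #A + 1 + k := ⟨Fintype.card V - #A - 1, by omega⟩
  have e1 : Fintype.card V - #A = k + 1 := by omega
  have e2 : Fintype.card V - (#A + 1) = k := by omega
  have e3 : Fintype.card V - 1 - #A = k := by omega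
  rw [e1, e2, e3]
  ring

theorem inf_ins (q : ℝ) (w : V) (F : Finset V → ℝ) :
    E q (fun A => F (insert w A)) =
      ∑ A with w ∈ A, q ^ (#A - 1) * (1 - q) ^ (Fintype.card V - #A) * F A := by
  unfold E
  rw [inf_pair w, inf_bij w]
  refine sum_congr rfl fun A hA => ?_
  simp only [mem_filter, mem_univ, true_and] at hA
  show q ^ #A * (1 - q) ^ (Fintype.card V - #A) * F (insert w A) +
    q ^ #(insert w A) * (1 - q) ^ (Fintype.card V - #(insert w A)) * F (insert w (insert w A)) = _
  rw [insert_idem, ← add_mul, inf_wt q w A hA, card_insert_of_notMem hA]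
  have e1 : Fintype.card V - (#A + 1) = Fintype.card V - 1 - #A := by omega
  rw [e1, Nat.add_sub_cancel]

theorem inf_era (q : ℝ) (w : V) (F : Finset V → ℝ) :
    E q (fun A => F (A.erase w)) =
      ∑ A with w ∉ A, q ^ #A * (1 - q) ^ (Fintype.card V - 1 - #A) * F A := by
  unfold E
  rw [inf_pair w]
  refine sum_congr rfl fun A hA => ?_
  simp only [mem_filter, mem_univ, true_and] at hA
  show q ^ #A * (1 - q) ^ (Fintype.card V - #A) * F (A.erase w) +
    q ^ #(insert w A) * (1 - q) ^ (Fintype.card V - #(insert w A)) * F ((insert w A).erase w) = _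
  rw [erase_insert hA, erase_eq_of_notMem hA, ← add_mul, inf_wt q w A hA]

theorem inf_sum (q : ℝ) (F : Finset V → ℝ) :
    ∑ w : V, E q (fun A => F (insert w A) - F (A.erase w)) =
      ∑ A : Finset V, ((#A : ℝ) * q ^ (#A - 1) * (1 - q) ^ (Fintype.card V - #A) -
        ((Fintype.card V - #A : ℕ) : ℝ) * (1 - q) ^ (Fintype.card V - #A - 1) * q ^ #A) * F A := by
  have h1 : ∀ w : V, E q (fun A => F (insert w A) - F (A.erase w)) =
      ∑ A : Finset V, ((if w ∈ A then q ^ (#A - 1) * (1 - q) ^ (Fintype.card V - #A) * F A else 0)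
        - if w ∉ A then q ^ #A * (1 - q) ^ (Fintype.card V - 1 - #A) * F A else 0) := by
    intro w
    rw [E_sub, inf_ins, inf_era, sum_sub_distrib, sum_filter, sum_filter]
  rw [sum_congr rfl fun w _ => h1 w, sum_comm]
  refine sum_congr rfl fun A _ => ?_
  rw [sum_sub_distrib, ← sum_filter, ← sum_filter, sum_const, sum_const]
  have h2 : (univ.filter fun w => w ∈ A) = A := by ext; simp
  have h3 : (univ.filter fun w => w ∉ A) = Aᶜ := by ext; simp
  rw [h2, h3, card_compl, nsmul_eq_mul, nsmul_eq_mul]
  have e1 : Fintype.card V - 1 - #A = Fintype.card V - #A - 1 := by omega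
  rw [e1]
  ring

/-- Russo's formula -/
theorem inf_russo (q : ℝ) (F : Finset V → ℝ) :
    HasDerivAt (fun q : ℝ => E q F)
      (∑ w : V, E q (fun A => F (insert w A) - F (A.erase w))) q := by
  rw [inf_sum]
  unfold E
  refine HasDerivAt.fun_sum fun A _ => ?_
  refine HasDerivAt.mul_const ?_ (F A)
  have h1 : HasDerivAt (fun q : ℝ => q ^ #A) ((#A : ℝ) * q ^ (#A - 1)) q := hasDerivAt_pow _ _
  have h2 : HasDerivAt (fun q : ℝ => (1 - q) ^ (Fintype.card V - #A))
      (((Fintype.card V - #A : ℕ) : ℝ) * (1 - q) ^ (Fintype.card V - #A - 1) * (-1)) q := by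
    have h3 : HasDerivAt (fun q : ℝ => 1 - q) (-1) q := by
      simpa using (hasDerivAt_id q).const_sub 1
    exact h3.pow _
  have h4 := h1.mul h2
  refine h4.congr_deriv ?_
  ring

theorem st_INF : ST_INF := by
  intro V _ _ θ M h0 h1 F hmono hF0 hFM
  have h2 : ∑ w : V, EE θ (fun A => F (insert w A) - F (A.erase w)) =
      ∫ α in (1 : ℝ)..2, ∑ w : V, E (α * θ) (fun A => F (insert w A) - F (A.erase w)) := by
    unfold EE
    rw [intervalIntegral.integral_finsetSum fun w _ => EE_int θ _]
  have h3 : ∀ α ∈ Set.uIcc (1 : ℝ) 2, HasDerivAt (fun α : ℝ => E (α * θ) F / θ)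
      (∑ w : V, E (α * θ) (fun A => F (insert w A) - F (A.erase w))) α := by
    intro α _
    have h4 := (inf_russo (α * θ) F).comp α ((hasDerivAt_id α).mul_const θ)
    have h5 := h4.div_const θ
    refine h5.congr_deriv ?_
    field_simp
  have h6 : IntervalIntegrable
      (fun α : ℝ => ∑ w : V, E (α * θ) (fun A => F (insert w A) - F (A.erase w))) volume 1 2 := by
    refine Continuous.intervalIntegrable ?_ _ _
    refine continuous_finsetSum _ fun w _ => ?_
    exact (E_cont _).comp (continuous_id.mul continuous_const)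
  rw [h2, intervalIntegral.integral_eq_sub_of_hasDerivAt h3 h6]
  have h7 : E (2 * θ) F ≤ M := by
    have := E_mono (q := 2 * θ) (by linarith) h1 hFM
    rwa [E_const] at this
  have h8 : 0 ≤ E (1 * θ) F := E_nonneg (by linarith) (by linarith) hF0
  rw [← sub_div]
  exact div_le_div_of_nonneg_right (by linarith) h0.le

end ZS
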