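import Pool.Agent.Helper43.ZS.Big

/-!
# Zonotope signing, module 17: the number of samples visible at `v`
-/

namespace Pool.Agent.Helper43.ZS

open Finset Pool.Agent.Helper38.ZS
open scoped Classical

noncomputable section

lemma diag_le_one {ι : Type} [Fintype ι] {P : ι → ι → ℝ} (hP : IsPr P) (v : ι) : P v v ≤ 1 := by
  have h1 : P v v ^ 2 ≤ P v v := by
    calc P v v ^ 2 ≤ ∑ k, P v k ^ 2 :=
          Finset.single_le_sum (f := fun k => P v k ^ 2) (fun k _ => sq_nonneg _) (mem_univ v)
      _ = P v v := row_sq hP v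
  by_contra h
  push Not at h
  nlinarith

/-- few large entries in a row -/
lemma card_large {ι : Type} [Fintype ι] {P : ι → ι → ℝ} (hP : IsPr P) (v : ι) (θ : ℝ)
    (hθ : 0 < θ) : (#(univ.filter (fun k => θ ≤ |P v k|)) : ℝ) ≤ 1 / θ ^ 2 := by
  rw [le_div_iff₀ (by positivity)]
  calc (#(univ.filter (fun k => θ ≤ |P v k|)) : ℝ) * θ ^ 2
      = ∑ k ∈ univ.filter (fun k => θ ≤ |P v k|), θ ^ 2 := by simp
    _ ≤ ∑ k ∈ univ.filter (fun k => θ ≤ |P v k|), P v k ^ 2 := by
        refine Finset.sum_le_sum fun k hk => ?_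
        have := (Finset.mem_filter.mp hk).2
        rw [← sq_abs (P v k)]
        exact pow_le_pow_left₀ hθ.le this 2
    _ ≤ ∑ k, P v k ^ 2 := Finset.sum_le_sum_of_subset_of_nonneg (Finset.subset_univ _)
        (fun i _ _ => sq_nonneg _)
    _ = P v v := row_sq hP v
    _ ≤ 1 := diag_le_one hP v

lemma log_term_nonneg (n : ℤ) : 0 ≤ Real.log (1 + |(n : ℝ)|) :=
  Real.log_nonneg (by linarith [abs_nonneg (n : ℝ)])

lemma lc_nonneg {ι : Type} [Fintype ι] (z : ι → ℤ) : 0 ≤ lc z :=
  Finset.sum_nonneg fun k _ => log_term_nonneg _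

/-- support of an integer vector -/
def spt {ι : Type} [Fintype ι] (z : ι → ℤ) : Finset ι := univ.filter (fun k => z k ≠ 0)

lemma spt_card_le {ι : Type} [Fintype ι] (z : ι → ℤ) : (#(spt z) : ℝ) ≤ 2 * lc z := by
  have h : (#(spt z) : ℝ) * (1 / 2) ≤ lc z := by
    calc (#(spt z) : ℝ) * (1 / 2) = ∑ k ∈ spt z, (1 / 2 : ℝ) := by simp
      _ ≤ ∑ k ∈ spt z, Real.log (1 + |(z k : ℝ)|) := by
          refine Finset.sum_le_sum fun k hk => ?_
          have hk : z k ≠ 0 := (Finset.mem_filter.mp hk).2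
          have h1 : (1 : ℝ) ≤ |(z k : ℝ)| := by
            have : (1 : ℤ) ≤ |z k| := Int.one_le_abs hk
            exact_mod_cast this
          have h2 : Real.log 2 ≤ Real.log (1 + |(z k : ℝ)|) :=
            Real.log_le_log (by norm_num) (by linarith)
          linarith [Real.log_two_gt_d9]
      _ ≤ lc z := Finset.sum_le_sum_of_subset_of_nonneg (Finset.subset_univ _)
          (fun i _ _ => log_term_nonneg _)
  linarith

lemma abs_le_exp_lc {ι : Type} [Fintype ι] (z : ι → ℤ) (k : ι) :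
    |(z k : ℝ)| ≤ Real.exp (lc z) := by
  have h1 : Real.log (1 + |(z k : ℝ)|) ≤ lc z :=
    Finset.single_le_sum (f := fun k => Real.log (1 + |(z k : ℝ)|))
      (fun k _ => log_term_nonneg _) (mem_univ k)
  have h2 : 1 + |(z k : ℝ)| ≤ Real.exp (lc z) := by
    rw [← Real.exp_log (show (0 : ℝ) < 1 + |(z k : ℝ)| by positivity)]
    exact Real.exp_le_exp.mpr h1
  linarith

theorem st_zc (h14 : ST_ZCNT) (h16 : ST_COUNT) : ST_ZC := by
  intro γ κ C hγ hγ1 hκ hκ1 hC
  obtain ⟨K0, hcount⟩ := h16 γ κ C hγ hγ1 hκ hκ1 hC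
  refine ⟨max K0 2, fun K hK => ?_⟩
  have hK0 : K0 ≤ K := le_trans (le_max_left _ _) hK
  have hK2 : (2 : ℝ) ≤ K := le_trans (le_max_right _ _) hK
  have hKpos : 0 < K := by linarith
  have hKone : 1 ≤ K := by linarith
  refine ⟨48 * K ^ 406, ?_, ?_⟩
  · have := one_le_pow₀ (n := 406) hKone
    linarith
  intro ι _ P m v F hP hm hF
  have hm1 : 1 ≤ m := by
    have := one_le_pow₀ (n := 406) hKone
    linarith
  have hmpos : 0 < m := by linarith
  set B : ℝ := m / (2 * K ^ 100) with hB
  have hB0 : 0 ≤ B := by positivity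
  set θ : ℝ := 1 / (m * K ^ 200 * Real.exp B) with hθ
  have hθ0 : 0 < θ := by positivity
  -- properties of members of `F`
  have hlc : ∀ z ∈ F, lc z ≤ B := fun z hz => (hF z hz).1.choose_spec.choose_spec.2.2
  have hcard : ∀ z ∈ F, (#(spt z) : ℝ) ≤ m / K ^ 100 := by
    intro z hz
    have h1 := spt_card_le z
    have h2 := hlc z hz
    have h3 : 2 * B = m / K ^ 100 := by rw [hB]; field_simp
    linarith
  have hSK : ∀ z ∈ F, ∀ k, z k ≠ 0 → spt z ∈ SK P γ κ C m K k := by
    intro z hz k hk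
    obtain ⟨⟨Z, g, hpiece, hout, hl⟩, _⟩ := hF z hz
    unfold SK
    rw [Finset.mem_filter]
    refine ⟨mem_univ _, Z, g, hpiece, ?_, ?_, hcard z hz⟩
    · by_contra h; exact hk (hout k h)
    · intro j hj
      by_contra h
      exact (Finset.mem_filter.mp hj).2 (hout j h)
  have hvis : ∀ z ∈ F, ∃ k, z k ≠ 0 ∧ θ ≤ |P v k| := by
    intro z hz
    by_contra hcon
    push Not at hcon
    have h1 := (hF z hz).2
    have h2 : |fd P K z v| ≤ 1 := by
      unfold fd ap
      calc |∑ k, P v k * (K ^ 200 * (z k : ℝ))| ≤ ∑ k, |P v k * (K ^ 200 * (z k : ℝ))| :=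
            Finset.abs_sum_le_sum_abs _ _
        _ = ∑ k ∈ spt z, |P v k * (K ^ 200 * (z k : ℝ))| := by
            symm
            refine Finset.sum_subset (Finset.subset_univ _) fun k _ hk => ?_
            have : z k = 0 := by
              by_contra h; exact hk (Finset.mem_filter.mpr ⟨mem_univ _, h⟩)
            simp [this]
        _ ≤ ∑ k ∈ spt z, 1 / m := by
            refine Finset.sum_le_sum fun k hk => ?_
            have hk' : z k ≠ 0 := (Finset.mem_filter.mp hk).2
            have h3 := hcon k hk'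
            have h4 : |(z k : ℝ)| ≤ Real.exp B :=
              le_trans (abs_le_exp_lc z k) (Real.exp_le_exp.mpr (hlc z hz))
            rw [abs_mul, abs_mul, abs_of_nonneg (by positivity : (0 : ℝ) ≤ K ^ 200)]
            calc |P v k| * (K ^ 200 * |(z k : ℝ)|) ≤ θ * (K ^ 200 * Real.exp B) := by
                  refine mul_le_mul h3.le ?_ (by positivity) hθ0.le
                  exact mul_le_mul_of_nonneg_left h4 (by positivity)
              _ = 1 / m := by rw [hθ]; field_simp
        _ = (#(spt z) : ℝ) / m := by simp [div_eq_mul_inv]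
        _ ≤ (m / K ^ 100) / m := div_le_div_of_nonneg_right (hcard z hz) hmpos.le
        _ = 1 / K ^ 100 := by field_simp
        _ ≤ 1 := by
            rw [div_le_one (by positivity)]
            exact one_le_pow₀ hKone
    linarith
  -- the vertices visible from `v`
  set N := univ.filter (fun k => θ ≤ |P v k|) with hN
  have hNcard : (#N : ℝ) ≤ Real.exp (m / K ^ 2) := by
    refine le_trans (card_large hP v θ hθ0) ?_
    have e1 : 1 / θ ^ 2 = m ^ 2 * K ^ 400 * Real.exp (m / K ^ 100) := by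
      have e2 : Real.exp (m / K ^ 100) = Real.exp B ^ 2 := by
        rw [← Real.exp_nat_mul]; congr 1; rw [hB]; push_cast; field_simp
      rw [e2, hθ]; field_simp
    rw [e1]
    have e3 : m ^ 2 * K ^ 400 ≤ Real.exp (m / (2 * K ^ 2)) := by
      have h1 : (m / (2 * K ^ 2)) ^ 3 / 6 ≤ Real.exp (m / (2 * K ^ 2)) := by
        have := Real.pow_div_factorial_le_exp (m / (2 * K ^ 2)) (by positivity) 3
        simpa [Nat.factorial] using this
      have h2 : m ^ 2 * K ^ 400 ≤ (m / (2 * K ^ 2)) ^ 3 / 6 := by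
        have h3 : (m / (2 * K ^ 2)) ^ 3 / 6 = m ^ 2 * (m / (48 * K ^ 6)) := by
          field_simp; ring
        rw [h3]
        refine mul_le_mul_of_nonneg_left ?_ (by positivity)
        rw [le_div_iff₀ (by positivity)]
        calc K ^ 400 * (48 * K ^ 6) = 48 * K ^ 406 := by ring
          _ ≤ m := hm
      linarith
    have e4 : Real.exp (m / K ^ 100) ≤ Real.exp (m / (2 * K ^ 2)) := by
      refine Real.exp_le_exp.mpr ?_
      refine div_le_div_of_nonneg_left hmpos.le (by positivity) ?_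
      have : (2 : ℝ) ≤ K ^ 98 := le_trans hK2 (le_self_pow₀ hKone (by norm_num))
      calc 2 * K ^ 2 ≤ K ^ 98 * K ^ 2 := mul_le_mul_of_nonneg_right this (by positivity)
        _ = K ^ 100 := by ring
    calc m ^ 2 * K ^ 400 * Real.exp (m / K ^ 100)
        ≤ Real.exp (m / (2 * K ^ 2)) * Real.exp (m / (2 * K ^ 2)) :=
          mul_le_mul e3 e4 (Real.exp_pos _).le (Real.exp_pos _).le
      _ = Real.exp (m / K ^ 2) := by rw [← Real.exp_add]; congr 1; field_simp; ring
  -- the cover
  have hcover : F ⊆ N.biUnion (fun k => (SK P γ κ C m K k).biUnion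
      (fun S => F.filter (fun z => spt z = S))) := by
    intro z hz
    obtain ⟨k, hk, hk2⟩ := hvis z hz
    rw [Finset.mem_biUnion]
    refine ⟨k, Finset.mem_filter.mpr ⟨mem_univ _, hk2⟩, ?_⟩
    rw [Finset.mem_biUnion]
    exact ⟨spt z, hSK z hz k hk, Finset.mem_filter.mpr ⟨hz, rfl⟩⟩
  set b : ℝ := Real.exp (2 * (m / K ^ 100)) * Real.exp (3 * B) with hb
  have hb0 : 0 ≤ b := by positivity
  have hfib : ∀ k, ∀ S ∈ SK P γ κ C m K k, (#(F.filter (fun z => spt z = S)) : ℝ) ≤ b := by
    intro k S hS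
    have hS' : (#S : ℝ) ≤ m / K ^ 100 := by
      unfold SK at hS
      obtain ⟨_, _, _, _, _, _, h⟩ := Finset.mem_filter.mp hS
      exact h
    have h1 := h14 ι S B (F.filter (fun z => spt z = S)) (by
      intro z hz
      obtain ⟨hz1, hz2⟩ := Finset.mem_filter.mp hz
      refine ⟨fun k hk => ?_, hlc z hz1⟩
      by_contra h
      exact hk (hz2 ▸ Finset.mem_filter.mpr ⟨mem_univ _, h⟩))
    refine le_trans h1 ?_
    rw [hb]
    refine mul_le_mul_of_nonneg_right ?_ (Real.exp_pos _).le
    have h4 : (4 : ℝ) ≤ Real.exp 2 := by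
      have := Real.add_one_le_exp (1 : ℝ)
      have e : Real.exp 2 = Real.exp 1 * Real.exp 1 := by rw [← Real.exp_add]; norm_num
      rw [e]; nlinarith
    calc (4 : ℝ) ^ (#S) ≤ (Real.exp 2) ^ (#S) := pow_le_pow_left₀ (by norm_num) h4 _
      _ = Real.exp (2 * (#S : ℝ)) := by rw [← Real.exp_nat_mul]; ring_nf
      _ ≤ Real.exp (2 * (m / K ^ 100)) := Real.exp_le_exp.mpr (by linarith)
  have hsum : (#F : ℝ) ≤ (#N : ℝ) * (Real.exp (20 * m / K ^ 2) * b) := by
    calc (#F : ℝ) ≤ (#(N.biUnion (fun k => (SK P γ κ C m K k).biUnion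
          (fun S => F.filter (fun z => spt z = S)))) : ℝ) := by
          exact_mod_cast Finset.card_le_card hcover
      _ ≤ ∑ k ∈ N, (#((SK P γ κ C m K k).biUnion
          (fun S => F.filter (fun z => spt z = S))) : ℝ) := by
          exact_mod_cast Finset.card_biUnion_le
      _ ≤ ∑ k ∈ N, (Real.exp (20 * m / K ^ 2) * b) := by
          refine Finset.sum_le_sum fun k _ => ?_
          calc (#((SK P γ κ C m K k).biUnion (fun S => F.filter (fun z => spt z = S))) : ℝ)
              ≤ ∑ S ∈ SK P γ κ C m K k, (#(F.filter (fun z => spt z = S)) : ℝ) := by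
                exact_mod_cast Finset.card_biUnion_le
            _ ≤ ∑ S ∈ SK P γ κ C m K k, b := Finset.sum_le_sum (hfib k)
            _ = (#(SK P γ κ C m K k) : ℝ) * b := by simp
            _ ≤ Real.exp (20 * m / K ^ 2) * b :=
                mul_le_mul_of_nonneg_right (hcount K hK0 ι P m k hP hm1) hb0
      _ = (#N : ℝ) * (Real.exp (20 * m / K ^ 2) * b) := by simp
  refine le_trans hsum ?_
  calc (#N : ℝ) * (Real.exp (20 * m / K ^ 2) * b)
      ≤ Real.exp (m / K ^ 2) * (Real.exp (20 * m / K ^ 2) * b) :=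
        mul_le_mul_of_nonneg_right hNcard (by positivity)
    _ = Real.exp (m / K ^ 2 + (20 * m / K ^ 2 + (2 * (m / K ^ 100) + 3 * B))) := by
        rw [hb, Real.exp_add, Real.exp_add, Real.exp_add]
    _ ≤ Real.exp (25 * m / K ^ 2) := by
        refine Real.exp_le_exp.mpr ?_
        have h1 : m / K ^ 100 ≤ m / K ^ 2 :=
          div_le_div_of_nonneg_left hmpos.le (by positivity)
            (pow_le_pow_right₀ hKone (by norm_num))
        have h2 : B ≤ (m / K ^ 100) / 2 := by
          rw [hB]; apply le_of_eq; field_simp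
        have h3 : 0 ≤ m / K ^ 2 := by positivity
        have h4 : 20 * m / K ^ 2 = 20 * (m / K ^ 2) := by ring
        have h5 : 25 * m / K ^ 2 = 25 * (m / K ^ 2) := by ring
        rw [h4, h5]
        linarith

end

end Pool.Agent.Helper43.ZS
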